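import Pool.Agent.H878R2.Cov.Roll2

/-!
# The covariogram problem in `ℝ³`: bodies with the two rolling properties
-/

namespace Pool.Agent.Results.MP_f27d50_gt.RollingBodies

open MeasureTheory Set Topology Metric

/-- A ball of radius `r` rolls freely inside `K`: every boundary point of `K` lies on the boundary
sphere of a closed ball of radius `r` which is contained in `K`. -/
def BallRollsInside (r : ℝ) (K : Set (EuclideanSpace ℝ (Fin 3))) : Prop :=
  ∀ p ∈ frontier K, ∃ c : EuclideanSpace ℝ (Fin 3), dist p c = r ∧ closedBall c r ⊆ K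

/-- `K` rolls freely inside a ball of radius `R`: every boundary point of `K` lies on the boundary
sphere of a closed ball of radius `R` which contains `K`. -/
def RollsInsideBall (R : ℝ) (K : Set (EuclideanSpace ℝ (Fin 3))) : Prop :=
  ∀ p ∈ frontier K, ∃ c : EuclideanSpace ℝ (Fin 3), dist p c = R ∧ K ⊆ closedBall c R

/-- Let `K ⊆ ℝ³` be a convex body such that some ball rolls freely inside `K` and `K` rolls freely
inside some ball.  Then `K` is determined by its covariogram among ALL convex bodies of `ℝ³`, up to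
translations and reflections in a point. -/
theorem result (K : Set (EuclideanSpace ℝ (Fin 3)))
    (hK1 : IsCompact K) (hK2 : Convex ℝ K) (hK3 : (interior K).Nonempty)
    (hin : ∃ r : ℝ, 0 < r ∧ BallRollsInside r K) (hout : ∃ R : ℝ, 0 < R ∧ RollsInsideBall R K)
    (L : Set (EuclideanSpace ℝ (Fin 3))) (hL1 : IsCompact L) (hL2 : Convex ℝ L)
    (hL3 : (interior L).Nonempty)
    (hcov : ∀ x : EuclideanSpace ℝ (Fin 3),
      volume (K ∩ ((fun y => y + x) '' K)) = volume (L ∩ ((fun y => y + x) '' L))) :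
    ∃ z : EuclideanSpace ℝ (Fin 3), L = (fun y => y + z) '' K ∨ L = (fun y => z - y) '' K := by
  obtain ⟨r, hr, hin⟩ := hin
  obtain ⟨R, hR, hout⟩ := hout
  have hreg := Pool.Agent.H878R2.Cov.roll_reg hK1 hK2 hK3 hr hR hin hout
  obtain ⟨z, hz⟩ := Pool.Agent.H878R2.Cov.fin_all (by norm_num) hreg hL1 hL2 hL3 (fun x => by
    show (volume (K ∩ ((fun y => y + x) '' K))).toReal =
      (volume (L ∩ ((fun y => y + x) '' L))).toReal
    rw [hcov x])
  refine ⟨z, ?_⟩
  rcases hz with h | h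
  · exact Or.inl h
  · right
    rw [h]
    refine Set.image_congr (fun y _ => ?_)
    abel

/-- The class contains every convex body of class `C^2_+`. -/
theorem c2plus_rolls (K : Set (EuclideanSpace ℝ (Fin 3)))
    (hK1 : IsCompact K) (hK2 : Convex ℝ K) (hK3 : (interior K).Nonempty)
    (hK4 : ∀ p ∈ frontier K, ∃ ρ : EuclideanSpace ℝ (Fin 3) → ℝ,
      ContDiffAt ℝ 2 ρ p ∧ fderiv ℝ ρ p ≠ 0 ∧ (∀ᶠ x in 𝓝 p, x ∈ K ↔ ρ x ≤ 0) ∧
      ∀ w, w ≠ 0 → fderiv ℝ ρ p w = 0 →
        ∃ w', fderiv ℝ ρ p w' = 0 ∧ fderiv ℝ (fderiv ℝ ρ) p w w' ≠ 0) :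
    ∃ r R : ℝ, 0 < r ∧ 0 < R ∧ BallRollsInside r K ∧ RollsInsideBall R K :=
  Pool.Agent.H878R2.Cov.reg_roll (Pool.Agent.H878R2.Cov.reg_c2 (by norm_num) hK1 hK2 hK3 hK4)

end Pool.Agent.Results.MP_f27d50_gt.RollingBodies
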